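import Pool.Agent.Helper4.HZ.Goals

/-!
# Packet AUC: automorphisms of `PSL₂(p)` are conjugations by invertible matrices
-/

namespace Pool.Agent.Helper5.HZ

open Pool.Agent.Helper4.HZ Matrix

/-- **AUC.** -/
theorem AUC_holds (hA : S_AUA) (hB : S_AUB) : S_AUC := by
  intro p _ φ
  obtain ⟨h, h1, h2⟩ := hA p φ
  obtain ⟨C, rfl⟩ := QuotientGroup.mk_surjective h
  have hφ' : ∀ x, (φ.trans (MulAut.conj (QuotientGroup.mk C : PSL2 p))) x =
      QuotientGroup.mk C * φ x * (QuotientGroup.mk C)⁻¹ := fun x => rfl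
  obtain ⟨a, ha, h3⟩ := hB p (φ.trans (MulAut.conj (QuotientGroup.mk C : PSL2 p)))
    (fun x => by
      obtain ⟨x', hx⟩ := h1 x
      exact ⟨x', (hφ' _).trans hx⟩)
    (fun y => by
      obtain ⟨y', hy⟩ := h2 y
      exact ⟨y', (hφ' _).trans hy⟩)
  let D : Matrix (Fin 2) (Fin 2) (ZMod p) := !![a, 0; 0, 1]
  have hD : D.det = a := by simp [D, Matrix.det_fin_two]
  have hDu : IsUnit D := (Matrix.isUnit_iff_isUnit_det D).2 (by rw [hD]; exact ha.isUnit)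
  have hM : ((C⁻¹).1 * D).det ≠ 0 := by
    rw [Matrix.det_mul, hD, (C⁻¹).2, one_mul]
    exact ha
  refine ⟨Matrix.GeneralLinearGroup.mkOfDetNeZero ((C⁻¹).1 * D) hM, fun A B hAB => ?_⟩
  have hAB' : ((C⁻¹).1 * D) * A.1 = B.1 * ((C⁻¹).1 * D) := hAB
  have hdA : A.1 0 0 * A.1 1 1 - A.1 0 1 * A.1 1 0 = 1 := by
    rw [← Matrix.det_fin_two]
    exact A.2
  have hdet : (!![A.1 0 0, a * A.1 0 1; a⁻¹ * A.1 1 0, A.1 1 1] :
      Matrix (Fin 2) (Fin 2) (ZMod p)).det = 1 := by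
    rw [Matrix.det_fin_two_of]
    have e : a * A.1 0 1 * (a⁻¹ * A.1 1 0) = (a * a⁻¹) * (A.1 0 1 * A.1 1 0) := by ring
    rw [e, mul_inv_cancel₀ ha, one_mul]
    exact hdA
  let B' : Matrix.SpecialLinearGroup (Fin 2) (ZMod p) := ⟨_, hdet⟩
  have h4 := h3 A B' rfl
  rw [hφ'] at h4
  have hBD : B'.1 * D = D * A.1 := by
    have e : ∀ i j, (B'.1 * D) i j = (D * A.1) i j := by
      intro i j
      rw [Matrix.mul_apply, Matrix.mul_apply, Fin.sum_univ_two, Fin.sum_univ_two]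
      fin_cases i <;> fin_cases j <;> simp [B', D]
      · ring
      · rw [mul_right_comm, inv_mul_cancel₀ ha, one_mul]
    exact Matrix.ext e
  have h5 : (C⁻¹).1 * B'.1 = B.1 * (C⁻¹).1 := by
    have h6 : ((C⁻¹).1 * B'.1) * D = (B.1 * (C⁻¹).1) * D := by
      rw [Matrix.mul_assoc, hBD, ← Matrix.mul_assoc, hAB', Matrix.mul_assoc]
    exact hDu.mul_right_cancel h6
  have h7 : C⁻¹ * B' = B * C⁻¹ := Subtype.ext h5
  have h8 : B = C⁻¹ * B' * C := by rw [h7, inv_mul_cancel_right]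
  have h9 : φ (QuotientGroup.mk A) =
      (QuotientGroup.mk C)⁻¹ * (QuotientGroup.mk C * φ (QuotientGroup.mk A) *
        (QuotientGroup.mk C)⁻¹) * QuotientGroup.mk C := by group
  rw [h9, h4, h8]
  rfl

end Pool.Agent.Helper5.HZ
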